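import Pool.Agent.Helper39.Uct.Goals3

/-!
# RZ: algebras weakly graded by groups in `PZ` are in the Rosenberg-Schochet class
-/

open scoped ComplexOrder

namespace Pool.Agent.Helper69.Uct2

open Pool.Agent.Helper39.Uct Pool.Agent.Helper39.Uct.Fib

/-- Transport of a weak grading along an isomorphism. -/
def transport {Q Q' : Type} [Group Q] [Group Q'] (e : Q ≃* Q') {B : Type}
    [NonUnitalCStarAlgebra B] (G : Fib Q' B) : Fib Q B where
  fib q := G.fib (e q)
  closed q := G.closed (e q)
  mul_mem p q x y hx hy := by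
    rw [map_mul]
    exact G.mul_mem _ _ _ _ hx hy
  star_mem q x hx := by
    rw [map_inv]
    exact G.star_mem _ _ hx
  dense := by
    have : (⨆ q, G.fib (e q)) = ⨆ q, G.fib q := e.toEquiv.iSup_comp (g := fun q => G.fib q)
    rw [this]
    exact G.dense

/-- Subalgebras of separable C*-algebras are separable. -/
theorem separable_of_inj {A B : Type} [NonUnitalCStarAlgebra A] [NonUnitalCStarAlgebra B]
    [TopologicalSpace.SeparableSpace B] (ι : A →⋆ₙₐ[ℂ] B) (h : Function.Injective ι) :
    TopologicalSpace.SeparableSpace A := by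
  have hiso : Isometry ι := AddMonoidHomClass.isometry_of_norm ι fun a =>
    NonUnitalStarAlgHom.norm_map ι h a
  haveI : SecondCountableTopology B := UniformSpace.secondCountable_of_separable B
  haveI : SecondCountableTopology A := hiso.isEmbedding.secondCountableTopology
  infer_instance

theorem rz (hPZI : S_PZI) (hZ : S_ZORN2) (hIDL : S_IDL) (hTQ : S_TQ2) (hCI : S_CI) (hTC : S_TC)
    (hRED : S_RED) (hFINI : S_FINI) (hFE : S_FE) (hTT : S_TT) : S_RZ := by
  intro 𝒞 hC Q _ hQ
  refine hPZI (fun Q _ => ∀ (B : Type) [NonUnitalCStarAlgebra B]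
    [TopologicalSpace.SeparableSpace B], WGQ Q B → 𝒞 B) ?_ ?_ Q hQ
  · rintro Q Q' _ _ e hP B _ _ ⟨G, A, instA, hA, ι, hι⟩
    refine hP B ⟨transport e G, A, instA, hA, ι, ?_⟩
    rw [hι]
    change (G.fib 1 : Set B) = (G.fib (e 1) : Set B)
    rw [map_one]
  · intro Q _ hQ ihs ihk
    refine hZ 𝒞 (fun A _ => WGQ Q A) ?_ hC.ext hC.union ?_ ?_
    · intro A _ hA
      refine hC.typeI A ?_
      intro A' _ π hπ hn
      exfalso
      haveI : Subsingleton A' := hπ.subsingleton
      exact not_subsingleton A' inferInstance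
    · intro A A' _ _ π hπ h
      exact hTQ Q A A' π hπ h
    · intro A _ _ hA hn
      obtain ⟨H, instH, ι, hher, hnt, G, hG⟩ := hTC Q A hA hn
      obtain ⟨H', instH', ι', hher', hnt', hor⟩ := hRED Q hQ.1 H G hG hnt
      have hcomp : Hered (ι.comp ι') := t_HT H' H A ι' ι hher' hher
      haveI : TopologicalSpace.SeparableSpace H' := separable_of_inj (ι.comp ι') hcomp.1
      have hmem : 𝒞 H' := by
        rcases hor with ⟨G', hc, ht⟩ | ⟨M, K, instK, hK, G', hc⟩
        · by_cases hfin : Finite Q
          · exact hC.typeI H' (hFINI Q H' G' hc)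
          · rcases hQ.2 ⊤ ⊥ with h | ⟨f, hf⟩
            · exfalso
              apply hfin
              have e : (⊤ : Subgroup Q) ⧸ (⊥ : Subgroup (⊤ : Subgroup Q)) ≃* Q :=
                QuotientGroup.quotientBot.trans Subgroup.topEquiv
              exact Finite.of_equiv _ e.toEquiv
            · let e : (⊤ : Subgroup Q) ⧸ (⊥ : Subgroup (⊤ : Subgroup Q)) ≃* Q :=
                QuotientGroup.quotientBot.trans Subgroup.topEquiv
              let g : Q →* Multiplicative ℤ := f.comp e.symm.toMonoidHom
              have hg : Function.Surjective g := hf.comp e.symm.surjective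
              exact hTT 𝒞 hC Q g hg (fun A _ _ h => ihk g hg A h) H' G' hc
                ((hFE Q hQ H' G' ht).2 g hg)
        · exact ihs M K hK H' (hCI (M ⧸ K) H' G' hc)
      exact hIDL 𝒞 (fun H A _ _ _ ι h f hH => (hC.hered H A ι h f).1 hH) H' A (ι.comp ι') hcomp
        hnt' hmem

end Pool.Agent.Helper69.Uct2
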